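import Pool.Agent.H28.GN.T3
import Pool.Agent.H89.V.NPV

/-!
# MP_c59857_nt (THEOREM G): row NPG of the board `thg_modules` (the process is far from periodic)
-/

set_option autoImplicit false

open MeasureTheory ProbabilityTheory Filter Topology Finset
open scoped Nat ENNReal

namespace Pool.Agent.H40.GNG

open Pool.Agent.H28.LF Pool.Agent.H28.GN
open Pool.Agent.H67.AG (Inv Av)
open Pool.Agent.H83.V (vl)
open Pool.Agent.H89.V (gv gv_meas gv_abs gv_int gv_zero sqf_meas btY_meas)

theorem gv_false (ω : Yi) :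
    gv false ω = if (btY ω).2 = true then (if (btY ω).1 = true then 1 else -1) else 0 := by
  unfold gv vl
  cases (btY ω).2 <;> cases (btY ω).1 <;> simp

/-- the pointwise inequality -/
theorem point {u : Bool × Bool → ℂ} {ix : Bool × Bool → Fin 4} (hu : Um u) (hix : Ix u ix)
    (x y : Yi) : gv false x ^ 2 * gv false y ^ 2 - gv false x * gv false y ≤
      if aG ix x ≠ aG ix y then 2 else 0 := by
  rw [gv_false, gv_false]
  have key : ix (true, true) ≠ ix (false, true) := by
    intro h
    exact hu.2 ((hix _ _).1 h)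
  have hx : aG ix x = ix (!(btY x).1, (btY x).2) := rfl
  have hy : aG ix y = ix (!(btY y).1, (btY y).2) := rfl
  rw [hx, hy]
  generalize (btY x).1 = a
  generalize (btY x).2 = b
  generalize (btY y).1 = c
  generalize (btY y).2 = d
  have key' : ix (false, true) ≠ ix (true, true) := key.symm
  cases a <;> cases b <;> cases c <;> cases d <;> simp [key, key'] <;> norm_num <;>
    split_ifs <;> norm_num

/-- Row NPG. -/
theorem pf_NPG (hD : Pool.Agent.H28.LF.T_DVS) (hM : Pool.Agent.H67.AG.T_ME) : T_NPG := by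
  intro u ix ν hu hix h r hr
  have := h.prob
  have hmp : MeasurePreserving shY ν ν := h.erg.toMeasurePreserving
  by_contra hcon
  push Not at hcon
  -- the conditional expectation vanishes
  have hle : Inv shY r ≤ (inferInstance : MeasurableSpace Yi) := MeasurableSpace.invariants_le _
  have hE : ν[gv false | Inv shY r] =ᵐ[ν] 0 := by
    refine (ae_eq_condExp_of_forall_setIntegral_eq hle (gv_int false ν) (fun s _ _ => ?_)
      (fun s hs _ => ?_) ?_).symm
    · exact (integrable_zero _ _ _).integrableOn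
    · have h2 := MeasurableSpace.measurableSet_invariants.1 hs
      rw [gv_zero false h hr h2.1]
      · simp
      · refine Eventually.of_forall fun ω => ?_
        have h3 : ω ∈ shY^[r] ⁻¹' s ↔ ω ∈ s := by rw [h2.2]
        exact h3.symm
    · exact stronglyMeasurable_zero.aestronglyMeasurable
  have hT := hM Yi ν shY r (gv false) hmp (gv_meas false) (gv_abs false)
  have hT2 : Tendsto (fun n => ∫ ω, (Av shY r n (gv false) ω) ^ 2 ∂ν) atTop (𝓝 0) := by
    refine hT.congr fun n => integral_congr_ae ?_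
    filter_upwards [hE] with ω hω
    rw [hω]
    simp
  obtain ⟨q, hq⟩ : ∃ q : Yi → ℝ, q = fun ω => gv false ω ^ 2 := ⟨_, rfl⟩
  have hqm : Measurable q := by
    rw [hq]
    exact (gv_meas false).pow_const 2
  have hq0 : ∀ ω, 0 ≤ q ω := fun ω => by
    rw [hq]
    exact sq_nonneg _
  have hq1 : ∀ ω, q ω ≤ 1 := fun ω => by
    rw [hq]
    show gv false ω ^ 2 ≤ 1
    rw [← sq_abs]
    exact pow_le_one₀ (abs_nonneg _) (gv_abs false ω)
  have hqa : ∀ ω, |q ω| ≤ 1 := fun ω => by
    rw [abs_of_nonneg (hq0 ω)]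
    exact hq1 ω
  have hqi : Integrable q ν := Integrable.of_bound hqm.aestronglyMeasurable 1
    (Eventually.of_forall fun ω => by rw [Real.norm_eq_abs]; exact hqa ω)
  have hsq : (1 : ℝ) / 4 ≤ ∫ ω, q ω ∂ν := by
    have h1 := (hD ν h).2
    refine h1.trans ?_
    have h2 : ν.real {ω : Yi | (btY ω).2 = true} =
        ∫ ω, ({ω : Yi | (btY ω).2 = true} : Set Yi).indicator (fun _ => (1 : ℝ)) ω ∂ν := by
      rw [integral_indicator sqf_meas]
      simp
    rw [h2]
    refine integral_mono ?_ hqi fun ω => ?_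
    · exact (integrable_const (1 : ℝ)).indicator sqf_meas
    · by_cases h3 : (btY ω).2 = true
      · rw [Set.indicator_of_mem (show ω ∈ {ω : Yi | (btY ω).2 = true} from h3), hq]
        show (1 : ℝ) ≤ gv false ω ^ 2
        rw [gv_false, if_pos h3]
        split_ifs <;> norm_num
      · rw [Set.indicator_of_notMem (show ω ∉ {ω : Yi | (btY ω).2 = true} from h3)]
        exact hq0 ω
  -- pairs
  have hshm : ∀ j : ℕ, Measurable (shY^[j] : Yi → Yi) := fun j => shY.measurable.iterate _
  have haG : Measurable (aG ix) := (measurable_of_finite fun b : Bool × Bool => ix (ng b)).comp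
    btY_meas
  have hDm : ∀ i j : ℕ, MeasurableSet {ω : Yi | aG ix (shY^[i] ω) ≠ aG ix (shY^[j] ω)} := by
    intro i j
    exact (measurableSet_eq_fun (haG.comp (hshm i)) (haG.comp (hshm j))).compl
  have hpair0 : ∀ l l' : ℕ, l ≤ l' →
      ν.real {ω | aG ix (shY^[r * l] ω) ≠ aG ix (shY^[r * l'] ω)} ≤ 1 / 1000 := by
    intro l l' hll
    have h1 : {ω : Yi | aG ix (shY^[r * l] ω) ≠ aG ix (shY^[r * l'] ω)} =
        (shY^[r * l] : Yi → Yi) ⁻¹' {ω | aG ix (shY^[r * (l' - l)] ω) ≠ aG ix ω} := by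
      ext ω
      simp only [Set.mem_preimage, Set.mem_ofPred_eq]
      rw [← Function.iterate_add_apply]
      have e : r * (l' - l) + r * l = r * l' := by
        rw [← Nat.mul_add]
        congr 1
        omega
      rw [e]
      exact ne_comm
    have h2 : MeasurableSet {ω : Yi | aG ix (shY^[r * (l' - l)] ω) ≠ aG ix ω} := by
      have := hDm (r * (l' - l)) 0
      simpa using this
    rw [h1, (hmp.iterate (r * l)).measureReal_preimage h2.nullMeasurableSet]
    exact hcon (l' - l)
  have hpair : ∀ l l' : ℕ,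
      ν.real {ω | aG ix (shY^[r * l] ω) ≠ aG ix (shY^[r * l'] ω)} ≤ 1 / 1000 := by
    intro l l'
    rcases le_total l l' with hll | hll
    · exact hpair0 l l' hll
    · have h1 := hpair0 l' l hll
      have h2 : {ω : Yi | aG ix (shY^[r * l] ω) ≠ aG ix (shY^[r * l'] ω)} =
          {ω : Yi | aG ix (shY^[r * l'] ω) ≠ aG ix (shY^[r * l] ω)} := by
        ext ω
        exact ne_comm
      rw [h2]
      exact h1
  -- the averages
  have hAm : ∀ (f : Yi → ℝ), Measurable f → ∀ n : ℕ, Measurable (Av shY r n f) := by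
    intro f hf n
    unfold Av
    refine Measurable.div_const (Finset.measurable_sum _ fun l _ => ?_) _
    exact hf.comp (hshm _)
  have hAb : ∀ (f : Yi → ℝ), (∀ ω, |f ω| ≤ 1) → ∀ n : ℕ, ∀ ω, |Av shY r n f ω| ≤ 1 := by
    intro f hf n ω
    unfold Av
    rcases Nat.eq_zero_or_pos n with hn | hn
    · subst hn
      simp
    · have hn' : (0 : ℝ) < n := Nat.cast_pos.2 hn
      rw [abs_div, abs_of_pos hn', div_le_one hn']
      calc |∑ l ∈ range n, f (shY^[r * l] ω)| ≤ ∑ l ∈ range n, |f (shY^[r * l] ω)| :=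
            Finset.abs_sum_le_sum_abs _ _
        _ ≤ ∑ _l ∈ range n, (1 : ℝ) := Finset.sum_le_sum fun l _ => hf _
        _ = n := by simp
  have hAi : ∀ (f : Yi → ℝ), Measurable f → (∀ ω, |f ω| ≤ 1) → ∀ n : ℕ,
      Integrable (fun ω => (Av shY r n f ω) ^ 2) ν := by
    intro f hf hf1 n
    refine Integrable.of_bound ((hAm f hf n).pow_const 2).aestronglyMeasurable 1
      (Eventually.of_forall fun ω => ?_)
    rw [Real.norm_eq_abs, abs_pow]
    exact pow_le_one₀ (abs_nonneg _) (hAb f hf1 n ω)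
  have hmain : ∀ n : ℕ, 0 < n → ∫ ω, (Av shY r n q ω) ^ 2 ∂ν ≤
      ∫ ω, (Av shY r n (gv false) ω) ^ 2 ∂ν + 1 / 500 := by
    intro n hn
    have hn' : (0 : ℝ) < n := Nat.cast_pos.2 hn
    have hI : ∀ l l' : ℕ, Integrable (fun ω => if aG ix (shY^[r * l] ω) ≠ aG ix (shY^[r * l'] ω)
        then (2 : ℝ) else 0) ν := by
      intro l l'
      refine Integrable.of_bound ?_ 2 (Eventually.of_forall fun ω => ?_)
      · exact (Measurable.ite (hDm _ _) measurable_const measurable_const).aestronglyMeasurable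
      · split_ifs <;> norm_num
    have hIv : ∀ l l' : ℕ, ∫ ω, (if aG ix (shY^[r * l] ω) ≠ aG ix (shY^[r * l'] ω)
        then (2 : ℝ) else 0) ∂ν ≤ 1 / 500 := by
      intro l l'
      have h1 : (fun ω => if aG ix (shY^[r * l] ω) ≠ aG ix (shY^[r * l'] ω)
          then (2 : ℝ) else 0) = ({ω : Yi | aG ix (shY^[r * l] ω) ≠
            aG ix (shY^[r * l'] ω)}).indicator fun _ => (2 : ℝ) := by
        funext ω
        rw [Set.indicator_apply]
        rfl
      rw [h1, integral_indicator (hDm _ _), setIntegral_const, smul_eq_mul]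
      have := hpair l l'
      linarith
    have h1 : ∀ ω, (Av shY r n q ω) ^ 2 ≤ (Av shY r n (gv false) ω) ^ 2 +
        (∑ l ∈ range n, ∑ l' ∈ range n, (if aG ix (shY^[r * l] ω) ≠ aG ix (shY^[r * l'] ω)
          then (2 : ℝ) else 0)) / (n : ℝ) ^ 2 := by
      intro ω
      have h2 : ∀ f : Yi → ℝ, (Av shY r n f ω) ^ 2 =
          (∑ l ∈ range n, ∑ l' ∈ range n, f (shY^[r * l] ω) * f (shY^[r * l'] ω)) /
            (n : ℝ) ^ 2 := by
        intro f
        unfold Av
        rw [div_pow, sq (∑ l ∈ range n, f (shY^[r * l] ω)), Finset.sum_mul_sum]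
      rw [h2, h2, ← add_div]
      refine div_le_div_of_nonneg_right ?_ (by positivity)
      rw [← Finset.sum_add_distrib]
      refine Finset.sum_le_sum fun l _ => ?_
      rw [← Finset.sum_add_distrib]
      refine Finset.sum_le_sum fun l' _ => ?_
      have h3 := point hu hix (shY^[r * l] ω) (shY^[r * l'] ω)
      rw [hq]
      show gv false (shY^[r * l] ω) ^ 2 * gv false (shY^[r * l'] ω) ^ 2 ≤ _
      linarith
    have hS : Integrable (fun ω => (∑ l ∈ range n, ∑ l' ∈ range n,
        (if aG ix (shY^[r * l] ω) ≠ aG ix (shY^[r * l'] ω) then (2 : ℝ) else 0)) /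
          (n : ℝ) ^ 2) ν :=
      (integrable_finsetSum _ fun l _ => integrable_finsetSum _ fun l' _ => hI l l').div_const _
    have h4 := integral_mono (hAi q hqm hqa n)
      ((hAi (gv false) (gv_meas false) (gv_abs false) n).add hS) h1
    have h5 : ∫ ω, ((fun ω => (Av shY r n (gv false) ω) ^ 2) + fun ω => (∑ l ∈ range n,
        ∑ l' ∈ range n, (if aG ix (shY^[r * l] ω) ≠ aG ix (shY^[r * l'] ω) then (2 : ℝ) else 0)) /
          (n : ℝ) ^ 2) ω ∂ν = ∫ ω, (Av shY r n (gv false) ω) ^ 2 ∂ν +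
        (∑ l ∈ range n, ∑ l' ∈ range n, ∫ ω, (if aG ix (shY^[r * l] ω) ≠
          aG ix (shY^[r * l'] ω) then (2 : ℝ) else 0) ∂ν) / (n : ℝ) ^ 2 := by
      rw [integral_add' (hAi (gv false) (gv_meas false) (gv_abs false) n) hS, integral_div,
        integral_finsetSum _ fun l _ => integrable_finsetSum _ fun l' _ => hI l l']
      congr 2
      refine Finset.sum_congr rfl fun l _ => ?_
      rw [integral_finsetSum _ fun l' _ => hI l l']
    rw [h5] at h4
    have h6 : (∑ l ∈ range n, ∑ l' ∈ range n, ∫ ω, (if aG ix (shY^[r * l] ω) ≠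
        aG ix (shY^[r * l'] ω) then (2 : ℝ) else 0) ∂ν) / (n : ℝ) ^ 2 ≤ 1 / 500 := by
      rw [div_le_iff₀ (by positivity)]
      calc (∑ l ∈ range n, ∑ l' ∈ range n, ∫ ω, (if aG ix (shY^[r * l] ω) ≠
            aG ix (shY^[r * l'] ω) then (2 : ℝ) else 0) ∂ν) ≤
            ∑ _l ∈ range n, ∑ _l' ∈ range n, (1 / 500 : ℝ) :=
            Finset.sum_le_sum fun l _ => Finset.sum_le_sum fun l' _ => hIv l l'
        _ = 1 / 500 * (n : ℝ) ^ 2 := by
            rw [Finset.sum_const, Finset.sum_const, Finset.card_range, nsmul_eq_mul,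
              nsmul_eq_mul]
            ring
    linarith
  -- the mean of the averages
  obtain ⟨N, hN⟩ := (hT2.eventually
    (gt_mem_nhds (show (0 : ℝ) < 1 / 100 by norm_num))).exists_forall_of_atTop
  have h1 := hN (N + 1) (Nat.le_succ N)
  have h2 := hmain (N + 1) (Nat.succ_pos N)
  have hAq : Integrable (Av shY r (N + 1) q) ν := Integrable.of_bound
    (hAm q hqm _).aestronglyMeasurable 1
    (Eventually.of_forall fun ω => by rw [Real.norm_eq_abs]; exact hAb q hqa _ ω)
  have hmean : ∫ ω, Av shY r (N + 1) q ω ∂ν = ∫ ω, q ω ∂ν := by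
    unfold Av
    rw [integral_div, integral_finsetSum]
    · have h3 : ∀ l ∈ range (N + 1), ∫ ω, q (shY^[r * l] ω) ∂ν = ∫ ω, q ω ∂ν := by
        intro l _
        have e1 := (hmp.iterate (r * l)).map_eq
        have e2 := integral_map (μ := ν) (f := q) (hshm (r * l)).aemeasurable
          (by rw [e1]; exact hqm.aestronglyMeasurable)
        rw [e1] at e2
        exact e2.symm
      rw [Finset.sum_congr rfl h3, Finset.sum_const, Finset.card_range, nsmul_eq_mul]
      field_simp
    · intro l _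
      refine Integrable.of_bound (hqm.comp (hshm _)).aestronglyMeasurable 1
        (Eventually.of_forall fun ω => ?_)
      rw [Real.norm_eq_abs]
      exact hqa _
  have hvar : 0 ≤ ∫ ω, (Av shY r (N + 1) q ω - ∫ ω, q ω ∂ν) ^ 2 ∂ν :=
    integral_nonneg fun ω => sq_nonneg _
  obtain ⟨m, hm⟩ : ∃ m : ℝ, m = ∫ ω, q ω ∂ν := ⟨_, rfl⟩
  rw [← hm] at hvar hmean hsq
  have h3 : ∫ ω, (Av shY r (N + 1) q ω - m) ^ 2 ∂ν =
      ∫ ω, (Av shY r (N + 1) q ω) ^ 2 ∂ν - m ^ 2 := by
    have h4 : ∀ ω, (Av shY r (N + 1) q ω - m) ^ 2 =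
        (Av shY r (N + 1) q ω) ^ 2 - (2 * m * Av shY r (N + 1) q ω - m ^ 2) := by
      intro ω
      ring
    have hB : Integrable (fun ω => 2 * m * Av shY r (N + 1) q ω - m ^ 2) ν :=
      (hAq.const_mul _).sub (integrable_const _)
    simp only [h4]
    rw [integral_sub (hAi q hqm hqa _) hB,
      integral_sub (hAq.const_mul _) (integrable_const _), integral_const_mul, hmean]
    simp
    ring
  rw [h3] at hvar
  nlinarith

end Pool.Agent.H40.GNG
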